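import Pool.Agent.H857.EF.Full
import Pool.Agent.H857.EF.Defs4

/-!
# MP_557161_ag: the conjecture of Tate on the poles of the zeta functions of the powers of abelian
fourfolds, and the exact order of magnitude of the number of the fourfolds with exotic Tate classes

Let `q = p ^ a` be a prime power, and let `W` be the set of the Weil polynomials of degree eight
relative to `q` with integral Newton polygons (`weilPolynomials p a 4`): monic polynomials `f` with
integral coefficients, constant term `q ^ 4` and roots of absolute value `√q`. It contains the
characteristic polynomials of the Frobenius endomorphisms of all abelian fourfolds over the field with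
`q` elements (Weil), which determine them up to isogeny (Tate).

A Tate class on a power of an abelian variety `A` is exotic if it is over no extension of the finite
field a linear combination of products of divisor classes. If there are no exotic classes, the formula
of Tate for the powers of `A` follows from Tate's theorem on divisors.

There are constants `C > 0` and `m > 0` such that for all prime powers `q`:

1. `W` is finite and has at least `q ^ 5 / C` and at most `C q ^ 5` elements.
2. There are at most `C q ^ (5 / 2)` elements `f` of `W` with exotic classes on a power of `A`
   (`ExoticOnPower`).
3. If `q > C`, there are at least `q ^ (5 / 2) / C` elements `f` of `W` which are ordinary (the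
   coefficient in the middle is prime to `q`) and irreducible, so that (Honda, Tate) they belong to
   isogeny classes of simple ordinary abelian fourfolds `A`, and for which there are exotic classes of
   codimension two on `A` itself, over the field with `q` elements (`ExoticInCodimTwo`).
4. For all the other `f` in `W`, those without exotic classes, the formula of Tate holds for all
   powers of `A`, in all codimensions, over all extensions of the field with `q ^ m` elements: for the
   zeta function and the products of divisor classes (`PolesOfPowers`, a statement without any
   assumption) and for the Chow groups and every Weil cohomology (`TateForPowers`). The number `m` is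
   universal.

So the number of the isogeny classes of abelian fourfolds over the field with `q` elements which have
exotic Tate classes on a power is of the exact order of magnitude `q ^ (5 / 2)`, the square root
of the number of all isogeny classes, and for the others the formula of Tate holds for all powers. The
bounds are uniform in `p` and `q`, and there is no restriction on the Newton polygon or on the
decomposition of `A` into simple factors.

Idea of the proof. A relation between the roots of an `f` whose real Weil polynomial is irreducible is a
relation between the slopes of the conjugates of four roots `α i`, one of each pair. The integrality of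
the Newton polygon and the transitivity of the Galois group on the pairs leave only relations of the
form `∏ α i ^ (± k) = q ^ c`, so that the Galois group permutes four roots `β i`, one of each pair, up
to complex conjugation, and `f = P P̄` with `P = X ^ 4 - u X ^ 3 + v X ^ 2 - ζ q ū X + ζ q ^ 2` over an
imaginary quadratic field, `v = ζ v̄`, with a root of unity `ζ`. All these fields together contain at
most `C q ^ (5 / 2)` such pairs `(u, v)`, since the lattices become sparse when the discriminants grow.
The `f` with reducible real Weil polynomials and exotic relations are counted with the fibres of the
map which forgets the last coefficient of a factor. For the lower bound one takes `ζ = 1`, and excludes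
the parameters with relations between two roots and the reducible polynomials. The universal exponent
`m` kills the roots of unity in the relations between two roots of a polynomial of degree eight.

The statements of the steps (`Pool.Agent.H857.EF.Core`, `Core2`, `Core3`) were proved by members of
the team: helpers 122, 187, 215, 230, 233, 249, 282, 294, 356, 389, 400, 597, 643, 662, 687, 707, 720,
721, 738, 740, 800, 857, 894, 962 and 996.
-/

set_option autoImplicit false

namespace Pool.Agent.Results.MP_557161_ag.ExoticFourfolds

open Polynomial Pool.Agent.H857.EF Pool.Agent.H857.SX

/-- **Abelian fourfolds with exotic Tate classes.** -/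
theorem result : ∃ C : ℝ, 0 < C ∧ ∃ m : ℕ, 0 < m ∧ ∀ (p : ℕ) [Fact p.Prime] (a : ℕ), 0 < a →
    -- all isogeny classes
    ((weilPolynomials p a 4).Finite ∧
      Real.sqrt ((p : ℝ) ^ a) ^ 10 ≤ C * (weilPolynomials p a 4).ncard ∧
      (weilPolynomials p a 4).ncard ≤ C * Real.sqrt ((p : ℝ) ^ a) ^ 10) ∧
    -- the isogeny classes with exotic Tate classes on a power: upper bound
    ({f ∈ weilPolynomials p a 4 | ExoticOnPower (p ^ a) f}.ncard : ℝ) ≤
      C * Real.sqrt ((p : ℝ) ^ a) ^ 5 ∧
    -- lower bound
    (C < (p : ℝ) ^ a → Real.sqrt ((p : ℝ) ^ a) ^ 5 ≤ C *
      ({f ∈ weilPolynomials p a 4 |
        IsCoprime (f.coeff 4) ((p ^ a : ℕ) : ℤ) ∧ Irreducible f ∧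
          ExoticInCodimTwo (p ^ a) f ∧ ExoticOnPower (p ^ a) f}.ncard : ℝ)) ∧
    -- the formula of Tate for all others
    ∀ f ∈ weilPolynomials p a 4, ¬ ExoticOnPower (p ^ a) f →
      ∃ g : ℤ[X], IsPowerPoly f m g ∧ PolesOfPowers ((p ^ a) ^ m) g ∧
        TateForPowers ((p ^ a) ^ m) g := by
  obtain ⟨C, hC, m, hm, h⟩ := main2 all_s4 all_s5b all_s6b all_s9 s13 all_s14 all_s15 all_s16 s17
    Pool.Agent.H643.EF.s18 all_s22i Pool.Agent.H740.EF.s23 Pool.Agent.H643.EF.s24
    Pool.Agent.H962.EF26.s26 Pool.Agent.H962.EF27.s27 s28 all_s29
    Pool.Agent.H962.EF26.s30 all_s31 all_s32
  refine ⟨C, hC, m, hm, fun p _ a ha => ?_⟩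
  simp only [exoticOnPower_iff, exoticInCodimTwo_iff]
  obtain ⟨⟨h1, h2, h3, _⟩, h5, h6, h7, _⟩ := h p a ha
  exact ⟨⟨h1, h2, h3⟩, h5, h6, h7⟩

end Pool.Agent.Results.MP_557161_ag.ExoticFourfolds
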