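import Pool.Agent.H857.SX.Rate
import Pool.Agent.H857.SX.PairMain
import Pool.Agent.H857.HK.Poles

/-!
# MP_557161_ag: the conjecture of Tate on the poles of the zeta functions of `A × Z`, for arbitrary
varieties `Z` and all abelian varieties `A` but a set of isogeny classes of the exact order of
magnitude of its size

Let `g i` (`i` in a finite set `I`) be positive integers. For a prime power `q = p ^ a` let
`families g p a` be the finite set of the families `f i` of Weil polynomials of degrees `2 g i`
relative to `q` with integral Newton polygons. It contains the families of the characteristic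
polynomials of the Frobenius endomorphisms of abelian varieties `A i` of dimensions `g i` over the
field with `q` elements (Weil), which determine the `A i` up to isogeny (Tate). It has
about `q ^ (∑ g i (g i + 1) / 4)` elements.

Let `Z` be any smooth projective variety over the field with `q` elements, and let the `ρ k` be the
eigenvalues of its Frobenius endomorphism on the cohomology. (More generally, let the `ρ k` be any
numbers with the properties of the eigenvalues of Frobenius: `r` Weil numbers of weights less than
`c` with slopes in `(1 / D) ℤ`.) The family `f` is exceptional for `Z` if there is a multiplicative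
relation between roots of the `f i`, the numbers `ρ k` and `q`, up to roots of unity, which does not
come from the pairs of conjugate roots `z`, `q / z`.

1. The proportion of the exceptional families among all the families is of the exact order of
   magnitude `∑ q ^ (- δ (g i) / 2)`, where `δ (g) = g` for `g ≠ 2` and `δ (2) = 1`: it is at most
   `C` times, and at least `1 / C` times this sum. The constant `C` depends only on the `g i`, on
   `r`, `c` and `D` - not on `p`, `q` and `Z`.
2. For all families `f` which are not exceptional, for all `s > 0`, and for all abelian varieties
   `A` over the field with `q ^ s` elements which are isogenous to a product of powers of abelian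
   varieties `A i` with characteristic polynomials `f i`, and all smooth projective varieties `Z'`
   over the field with `q ^ s` elements whose Frobenius eigenvalues lie, up to powers, in the group
   generated by the `ρ k` and `q` (for instance `Z' = Z`, or a power of `Z`, or a point):
   * (`PolesOfProducts`) the order of the pole at `s = c` of the zeta function of `A × Z'` is
     `∑ r i * o (c - i)`, where `o` stands for the orders of the poles of the zeta function of `Z'`
     and `r i` is the dimension of the span of the products of `i` divisor classes on `A` (the
     elements `y` of `⋀ ^ 2 H ^ 1 (A)` with `F y = q y`). This is a statement on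
     the zeta functions as meromorphic functions, without any assumption.
   * (`TateForProducts`) for every Weil cohomology theory and the Chow groups: `r i > 0` is the rank
     of the group of cycles of codimension `i` on `A` modulo numerical equivalence, the rank for
     `A × Z'` is the sum of the products of the ranks for `A` and `Z'`, and the formula of Tate
     `ord_(s = c) ζ = - rank` holds for `A × Z'` if and only if it holds for `Z'` at all `c - i`,
     `0 ≤ i ≤ dim A`.

So the conjecture of Tate for `Z` implies the conjecture for `A × Z`, for all `A` but a
proportion of isogeny classes which is `O (q ^ (- g / 2))` (`O (q ^ (- 1 / 2))` for `g = 2`) with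
constants independent of `q`, and in this method the exponent cannot be improved. For `r = 0` this
is the conjecture of Tate, in all codimensions, for all powers of all products of the `A i`.
-/

set_option autoImplicit false

namespace Pool.Agent.Results.MP_557161_ag.SharpExceptionalSet

open Pool.Agent.H857.SX Pool.Agent.H857.HK

/-- **The exceptional set.** -/
theorem result {I : Type} [Fintype I] (g : I → ℕ) (hg : ∀ i, 0 < g i) (r D c : ℕ) (hD : 0 < D) :
    ∃ C : ℝ, 0 < C ∧ ∀ (p : ℕ) [Fact p.Prime] (a : ℕ), 0 < a →
      ((families g p a).Finite ∧
        ∏ i, Real.sqrt ((p : ℝ) ^ a) ^ (g i * (g i + 1) / 2) ≤ C * (families g p a).ncard ∧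
        (families g p a).ncard ≤ C * ∏ i, Real.sqrt ((p : ℝ) ^ a) ^ (g i * (g i + 1) / 2)) ∧
      ∀ (w : Fin r → ℕ) (ρ : Fin r → ℂ), (∀ k, w k < c ∧ IsWeilNumber p a D (w k) (ρ k)) →
        (({f ∈ families g p a | ¬ Independent f (p ^ a) ρ}.ncard : ℝ) ≤
            C * (rate g ((p : ℝ) ^ a) * (families g p a).ncard) ∧
          rate g ((p : ℝ) ^ a) * (families g p a).ncard ≤
            C * {f ∈ families g p a | ¬ Independent f (p ^ a) ρ}.ncard) ∧
        ∀ f ∈ families g p a, Independent f (p ^ a) ρ →
          PolesOfProducts (p ^ a) f (Generated (p ^ a) ρ) ∧
          TateForProducts (p ^ a) f (Generated (p ^ a) ρ) := by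
  classical
  obtain ⟨C, hC, h⟩ := exists_rate hg r hD c
  refine ⟨C, hC, fun p _ a ha => ⟨⟨Pool.Agent.H857.PA.fams_finite g, (h p a ha).1⟩,
    fun w ρ hρ => ⟨(h p a ha).2 w ρ hρ, ?_⟩⟩⟩
  intro f hf hind
  have hp : p.Prime := Fact.out
  have hq : 1 < p ^ a := Nat.one_lt_pow ha.ne' hp.one_lt
  have hR := (indep_iff ha (ρ := ρ) hf).2 hind
  refine ⟨polesOfProducts hq hR ?_, tateForProducts hq hR⟩
  intro i z hz
  have h0 : z ≠ 0 := by
    rintro rfl
    have h1 := (hf i).1.2.2.2 0 hz
    rw [norm_zero, zero_pow two_ne_zero] at h1
    exact pow_ne_zero a hp.ne_zero (by exact_mod_cast h1.symm)
  refine ⟨h0, fun h1 => hind.1 i z hz ?_⟩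
  rw [div_eq_iff h0] at h1
  rw [sq, ← h1]

end Pool.Agent.Results.MP_557161_ag.SharpExceptionalSet
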