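import Mathlib
import Pool.Agent.H298.Core.WeilRel
import Pool.Graph.R_pool_sql_team_seeded_843ab51a.V1168.BB.PoleNum
import Pool.Agent.H298.Core.Double

/-!
# The poles of the zeta functions of the products of arbitrary varieties over finite fields with
abelian varieties whose CM fields have irreducible odd part or primitive core

Tate's formula for a smooth projective variety over a finite field says that the order of the pole
of its zeta function at `s = j` is the rank of the group of the cycles of codimension `j` modulo
numerical equivalence.

**In short.** Let `K` be a CM field of degree `2 g`, `K₀` its maximal real subfield and `2 ^ v`, `1
≤ v ≤ g`, the degree of the Galois closure of `K` over the Galois closure of `K₀` (typically `v =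
g`). The theorem is for the Weil numbers `π` all powers of which generate `K`, in the following
cases (`FieldCriteria`), among others: **(a) `v > g / 3`; (b) the slopes of `π` have odd
denominators, for example `π` is ordinary, and `v > g / 4`, or `g` is the product of two prime
numbers and `v > 1`, or `g` is prime, or `K` has few divisors in the sense of `FewDivisors`; (c) the
Galois group of `K₀` is doubly transitive, and `g` is odd, or `g - 1` is a prime number, or at least
`g` is none of the numbers `10, 16, 26, 28, 36, …` (`TwoGraphDegree`); or it is triply transitive,
for example the symmetric group, or the alternating group if `g ≥ 5`, `g ≥ 3`; and no norm of `π` to
an imaginary quadratic field is supersingular** (this is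
so if `g` is odd and `π` is ordinary). The general hypothesis (`IsCoreWeil`) is explained below.

**Cores.** Let `X` be the set of the complex embeddings of the CM field `K`, `[K : ℚ] = 2 g`. The
automorphisms of `ℂ` which map all elements of `X` to themselves or to their complex conjugates are
called sign changes. The first core of `φ : X` consists of the `ψ : X` which are moved by the same
sign changes as `φ`. If one uses all automorphisms which map the elements of the first core to
themselves or to their conjugates, one obtains the second core, inside of the first one, and so on
(`coreOf`). The cores of the same index have the same number `2 c` of elements, `c` divides `g`, and
the smallest such number `c` is the core number of `K`. It satisfies `c ≤ g / v`, and if a prime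
number `q` divides the discriminant of `K`, but not the discriminant of the maximal real subfield,
then `q ^ c` divides the discriminant of `K`. `FewDivisors` says that all divisors of `g` which
satisfy these conditions are one or prime.

**The Weil numbers.** Let `p` be a prime number, `q = p ^ a`, let `K i` (`i` in a finite set) be CM
fields and `π i` Weil numbers for `q` in `K i` such that each power `(π i) ^ n`, `n ≥ 1`, generates
`K i`. By Honda and Tate they correspond to the abelian varieties over the field with `q` elements
which are geometrically simple with commutative endomorphism ring, and to other abelian varieties.
Suppose that for each `K = K i` one of the following conditions holds (`IsCoreWeil`).

* The rational functions on `X` which change their sign under complex conjugation are an irreducible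
  representation of the automorphisms of `ℂ` (`OddIrreducible`), for example because the core number
  of `K` is one.
* There is a core with `c` pairs of embeddings, and `c` is a prime number, or `c = [K : F]` for a
  subfield `F`, not totally real, such that the automorphisms of `ℂ` act doubly transitively on the
  extensions to `K` of an embedding of `F` (`PrimitiveCore`); and there is **no** subfield `F` with
  `[K : F] = c`, not totally real, in which the norm `N` of `π i` is supersingular
  (`SupersingularNorm`; this means that `N ^ 2 / q ^ c` is a root of unity).

The condition on the norms in the second case is necessary and sufficient for the absence of
relations between the conjugates of `π i` (`NormCriteria`), and so of exotic Tate classes on the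
powers of its abelian variety; it is satisfied if `c = 2`, if `c` is odd and the slopes of `π i`
have odd denominators (for example in the ordinary case), and if all subfields `F` with `[K : F] =
c` are totally real. There are no other conditions on `π i`, its slopes, the decomposition of `p` in
`K i`, the degree or the Galois group of `K i`. The fields `K i` are pairwise independent
(`PairwiseIndep`; no condition if there is only one field). Let `f i` be monic polynomials whose
complex roots are conjugates of `π i` (`IsPolyOf`), for instance powers of the characteristic
polynomials of Frobenius. Let `A` be an abelian variety over the field with `Q = q ^ s` elements
which is isogenous to a product of powers of abelian varieties coming from the field with `q`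
elements, with characteristic polynomials `f i`.

**The theorem** (`PoleNumTimes`). Let `Y` be **any** smooth projective variety over the field with
`Q` elements which is unrelated to the fields `K i` in the following sense (`NumUnrelated`): the
zeros and poles `s` of the zeta function of `Y` are such that `Q^s` is unrelated to the fields `K i`
(the numbers `Q^s` are the eigenvalues of Frobenius on the cohomology of `Y`), and the Frobenius
endomorphism of `Y` satisfies on the groups of cycles of `A × Y` modulo numerical equivalence
nonzero rational polynomials with unrelated roots (by the theorem of Cayley and Hamilton the
characteristic polynomials of Frobenius on the cohomology of `Y` have this property). A complex
number `ρ ≠ 0` is unrelated to the fields `K i` (`Unrelated`) if a rational function on the complex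
embeddings of `K i` which changes its sign under complex conjugation and is invariant under all
automorphisms of `ℂ` that fix a power of `ρ` is zero. This is so if for each embedding `ψ` of `K i`
some automorphism which fixes a power of `ρ` is the complex conjugation on `ψ (K i)`, for instance
if a power of `ρ` is in a totally real field, or in a number field `F` from which `K i` is separated
by a prime number (see below).

Write `ρ_j` for the rank of the group of cycles of codimension `j` modulo numerical equivalence and
`δ_j(Y)` for the defect, the order of the pole of the zeta function of `Y` at `s = j` minus
`ρ_j(Y)`. There are products `D t` of `c t` divisor classes on `A`, finitely many (independent of
`Y`), such that, with rational coefficients,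

1. every class of codimension `j` on `A × Y` is in a unique way the sum of the products of the `D t`
   with classes of codimension `j - c t` on `Y`, and `ρ_j(A × Y) = ∑ ρ_(j - c t)(Y)`;
2. the order at `s = j` of the zeta function of `A × Y` is the sum over `t` of the orders at `s = j
   - c t` of the zeta function of `Y`, so that `δ_j(A × Y) = ∑ δ_(j - c t)(Y)`;
3. **the formula of Tate holds for `A × Y` at `s = j` if and only if it holds for `Y` at `s = j - k`
   for all `k` with `0 ≤ k ≤ dim A`.**

If `Y` is a point it is the formula for `A` and all `j`. The formula for `A × Y` is true for all `j`
for instance if `Y` is a curve, or a surface for which it is known. Nothing is assumed on `Y` apart
from the condition on the eigenvalues: neither the Tate conjecture, nor the semisimplicity of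
Frobenius, nor the coincidence of homological and numerical equivalence.

Part two (`AllCriteria`) contains the criteria: the cases (a), (b) and (c) above (`FieldCriteria`, `DoublyCriteria`),
the facts about the cores (`CoreFacts`) and about the norms (`NormCriteria`), the independence of
the fields, and the condition on the eigenvalues. A prime number `ℓ` separates `K i` from a number
field `F` if `ℓ` divides the discriminant of `K i` but not the one of its maximal real subfield and
not the one of `F`. The fields `K i` are pairwise independent if any two of them are separated by a
prime number (in one direction). All nonzero elements of `F` are independent of the `K i`, in
particular unrelated to them, if all `K i` are separated from `F`. So for example, if `ℓ` divides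
the discriminant of a CM field `K` and `ℓ ^ 2` does not, then the theorem holds for all Weil numbers
`π` in `K` with `ℚ(π ^ n) = K` for all `n`, and all varieties whose eigenvalues lie in fields of a
discriminant prime to `ℓ`.

The framework is the one of the library (`AbelianData`, `IsAbelian`, `RelData`, `IsRel`, `PureChow`,
`IsNumTheory`, `PointData`, `IsProductPoints`, `IsContinuation`): the Chow ring and the ring of
correspondences of `A` with rational coefficients and the cohomology of `A`, with the formal
properties and the theorems of Tate on divisors and of Kimura on the nilpotence of homologically
trivial correspondences; the groups of cycles of `Y` and `A × Y` modulo numerical equivalence; the
zeta functions are the Euler products over the closed points.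

**What was known.** For the powers of one abelian variety of prime dimension the Tate conjecture,
and with it the formula, follows from work of Tankeev (for CM types Kubota and Ribet), Lenstra and
Zarhin; in the library there are products with unrelated varieties for almost all slope types
(`AllCMTypesTimes`, whose machine is used). New here are the abelian varieties of all dimensions in
the fields with primitive cores, with a condition on the norms which is necessary and sufficient,
without exceptional types.

**The proof.** It is sufficient to show for each field `K` that the function `w`, the slope of `φ
(π)` minus one half, on the set `X` is not orthogonal to a nonzero space of odd functions which is
stable under the automorphisms of `ℂ`. If the odd functions are irreducible this is clear. Let `r`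
be an element of such a space with integral values. By the sign changes one can cut `r` down; this
gives, by induction on the size of the support and on the index of the core, a relation which is
supported in one core. The automorphisms preserving the core act transitively on it. If it has `2 c`
elements with a prime number `c`, then a Sylow subgroup contains an element which has two orbits of
length `c` on the core, exchanged by the complex conjugation. Since the cyclotomic polynomial is
irreducible, either `w (τ φ) = w (τ φ')` for all `τ` with two different `φ`, `φ'` of the core, or
the sums of `w` over the translates of one orbit are zero, and the orbit consists of the extensions
of an embedding of a subfield `F` with `[K : F] = c`, which is not totally real. In the doubly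
transitive case the extensions of an embedding of `F` are one half of the core (a sign change moves
all of them or none), and an average over a stabilizer gives the same two alternatives. In the first
case `φ (π)` and `φ' (π)` have the same absolute values at all places of all conjugates, so they
differ by a root of unity, and a power of `π` does not generate `K`. In the second case the norm of
`π` in `F` is supersingular. Conversely a supersingular norm is a relation, by Kronecker's theorem.
For the cases (a), (b) and (c) one uses that a sign change is determined by the first cores which it
moves, so that `2 ^ v ≤ 2 ^ (g / c)`, and that for a triply transitive group either the odd
functions are irreducible or the signs are given by a character of the group, so that `K` contains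
an imaginary quadratic field. If the group is doubly transitive, let `V` be a space of odd functions
which is stable under the automorphisms, neither zero nor everything. The values of its reproducing
kernel at two embeddings in different pairs are `β` or `-β`, and `β ≠ 0`; the signs form a regular
two-graph on the `g` pairs, with the eigenvalues `r` on `V` and `-s` on the orthogonal space,
`r s = g - 1`, `(r + s) dim V = g s`. If `g` is odd then `r` or `s` is even, and a descent modulo two
shows that the nonzero functions in one of the two spaces have no zeros; by the maximum principle
this is also true if `r` or `s` is `1` or `-1`. So this space has dimension one, and the signs of its
functions give an imaginary quadratic subfield.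
-/

set_option autoImplicit false

namespace Pool.Agent.Results.MP_557161_ag.SmallCoreFields

open NumberField Polynomial Pool.Agent.H977R3.CM Pool.Agent.Y1.CT Pool.Agent.H298.Core
  Pool.Agent.V1168.BB

/-- **The formula of Tate for the pole of the zeta function of `A × Y` at `s = j` is equivalent to the
one for `Y` at `s = j - k`, `0 ≤ k ≤ dim A`, for all abelian varieties `A` whose Weil numbers lie in
independent CM fields with irreducible odd part or primitive core, and all unrelated varieties
`Y`.** -/
theorem result :
    (∀ (p : ℕ) [Fact p.Prime] (a : ℕ), 0 < a → ∀ (I : Type) [Fintype I] (K : I → Type)
      [∀ i, Field (K i)] [∀ i, NumberField (K i)] [∀ i, IsCMField (K i)], PairwiseIndep K →
      ∀ (π : ∀ i, K i) (f : I → ℤ[X]), (∀ i, IsCoreWeil p a (π i)) →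
      (∀ i, IsPolyOf (π i) (f i)) → PoleNumTimes K (p ^ a) f) ∧ AllCriteria :=
  ⟨fun _ _ _ ha _ _ _ _ _ _ hK _ _ hπ hf =>
    poleNumTimes (Nat.one_lt_pow ha.ne' (Fact.out : Nat.Prime _).one_lt)
      (noRel_unrelated ha hK hπ hf), allCriteria_hold⟩

end Pool.Agent.Results.MP_557161_ag.SmallCoreFields
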