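import Pool.Agent.H843.Ex15

/-!
# The formula for the poles is the Tate conjecture for every Weil cohomology theory

Let `W` be a Weil cohomology theory for the smooth projective varieties over an algebraic closure
of a finite field, with Frobenius endomorphisms and the Riemann hypothesis, for instance `ℓ`-adic
cohomology. We compare it with all Weil cohomology theories for which the Frobenius endomorphisms
have the same traces. For each variety `X` and each `j` Tate's formula (the order of the pole at
`j` of the zeta function is the rank of the cycles of codimension `j` modulo numerical
equivalence) is equivalent to the weak Tate conjecture (Tate classes are combinations of classes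
of cycles) for all these theories; it is the same to ask it for one such theory for which
homological and numerical equivalence coincide, and such a theory exists.
-/

open CategoryTheory AlgebraicGeometry

universe u v

namespace Pool.Agent.Results.MP_557161_ag.WeakTateEveryTheory

open Pool.Agent.H914 Pool.Agent.H914.VarClass Pool.Agent.H914.VarClass.Obj
  Pool.Agent.H914.WeilCohomology Pool.Agent.H447 Pool.Agent.W534 Pool.Agent.H843

variable {k : Type u} [Field k] {𝒱 : VarClass k} {ops : CycleOps 𝒱}

/-- Let `W` be a Weil cohomology theory with Frobenius endomorphisms `Φ` which satisfies the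
Riemann hypothesis, on a class of varieties closed under products which contains a point, such
that each variety has a zero-cycle of nonzero degree. There is a Weil cohomology theory `Ws` with
the same Betti numbers and the same traces of correspondences on all `H^i(X)`, for which
homological and numerical equivalence coincide and the Frobenius endomorphisms are semisimple, and
for all `X` and `j ≤ dim X` the following are equivalent: the formula for the order of the pole
at `j`; the Tate conjecture for `Ws`, `X` and `j`; the Tate conjecture for `X` and `j` and all
Weil cohomology theories with the same traces of Frobenius; for all these theories the Tate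
conjecture for `X` and `j` holds and homological and numerical equivalence coincide in codimension
`j`; the same for one of these theories. -/
theorem result (W : WeilCohomology.{u, max (u + 1) v} ops) (hP : ∃ P : 𝒱.Obj, P.dim = 0)
    (hdeg : ∀ X : 𝒱.Obj, ∃ z, X.IsCyc X.dim z ∧ X.V.degCycle z ≠ 0) {p : ℕ} (hp : 1 < p)
    (Φ : FrobSystem W p) (σ : W.K →+* ℂ) (hRH : ∀ X, RiemannHyp Φ σ X) :
    ∃ (Ws : WeilCohomology.{u, max (u + 1) v} ops) (Φs : FrobSystem Ws p),
      Indistinguishable W Ws ∧ SameFrobTraces Φ Φs ∧ HomEqNumAll Ws ∧
      (∀ X, Module.End.IsSemisimple (Ws.map (Φs.Fr X)).toLinearMap) ∧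
      ∀ (X : 𝒱.Obj), ∀ j ≤ X.dim, List.TFAE [
        PoleFormula Φ σ X j,
        TateIn Φs X j,
        ∀ (W' : WeilCohomology.{u, max (u + 1) v} ops) (Φ' : FrobSystem W' p),
          SameFrobTraces Φ Φ' → TateIn Φ' X j,
        ∀ (W' : WeilCohomology.{u, max (u + 1) v} ops) (Φ' : FrobSystem W' p),
          SameFrobTraces Φ Φ' → TateIn Φ' X j ∧ HomEqNumIn W' X j,
        ∃ (W' : WeilCohomology.{u, max (u + 1) v} ops) (Φ' : FrobSystem W' p),
          SameFrobTraces Φ Φ' ∧ TateIn Φ' X j ∧ HomEqNumIn W' X j] :=
  Ex.mainT W hP hdeg hp Φ σ hRH

end Pool.Agent.Results.MP_557161_ag.WeakTateEveryTheory
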